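import Pool.Agent.H45.SQP.UPA
import Pool.Agent.H47.SQ.Targets2

/-!
# Search on random k-CNFs (MP_c62aed_lc), row UPD: forced variables, all solutions together
-/

set_option autoImplicit false

namespace Pool.Agent.H51.SQ

open Finset Pool.Agent.H97.RK Pool.Agent.H41.SS Pool.Agent.H47.SR Pool.Agent.H45.SQP
open Pool.Agent.H47.PL (Sat Os)
open Pool.Agent.H47.SQ (Derivation Refuted Find success Done)

variable {n k m : ℕ}

open Classical in
/-- the choices which lead to the solution `σ` -/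
noncomputable def EE (F : Fml n k m) (σ : Fin n → Bool) :
    Finset (Finset (Fin n × Bool) → Bool) :=
  univ.filter fun ω => ∀ v : Fin n, ¬ Frc F σ v → ω (LL σ v.1) = σ v

theorem exists_g (σ : Fin n → Bool) :
    ∃ g : Finset (Fin n × Bool) → Bool, ∀ v : Fin n, g (LL σ v.1) = σ v := by
  classical
  refine ⟨fun x => decide (∃ v : Fin n, LL σ v.1 = x ∧ σ v = true), fun v => ?_⟩
  show decide (∃ v' : Fin n, LL σ v'.1 = LL σ v.1 ∧ σ v' = true) = σ v
  cases hv : σ v with
  | true =>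
    rw [decide_eq_true_iff]
    exact ⟨v, rfl, hv⟩
  | false =>
    rw [decide_eq_false_iff_not]
    rintro ⟨v', h1, h2⟩
    rw [LL_inj σ v' v h1, hv] at h2
    exact Bool.false_ne_true h2

open Classical in
theorem card_EE (F : Fml n k m) (σ : Fin n → Bool) :
    (2 : ℝ) ^ (univ.filter fun v => Frc F σ v).card * (1 / 2) ^ n *
      (Nat.card (Finset (Fin n × Bool) → Bool) : ℝ) ≤ ((EE F σ).card : ℝ) := by
  obtain ⟨g, hg⟩ := exists_g σ
  set N := univ.filter fun v : Fin n => ¬ Frc F σ v with hN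
  have hcard : (univ.filter fun v => Frc F σ v).card + N.card = n := by
    rw [hN, Finset.card_filter_add_card_filter_not, card_univ, Fintype.card_fin]
  set P : Finset (Finset (Fin n × Bool)) := N.image fun v => LL σ v.1 with hP
  have hPN : P.card ≤ N.card := card_image_le
  have h1 := card_fix' P g
  have h2 : EE F σ = univ.filter fun ω : Finset (Fin n × Bool) → Bool => ∀ x ∈ P, ω x = g x := by
    ext ω
    unfold EE
    rw [mem_filter, mem_filter]
    constructor
    · rintro ⟨-, h⟩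
      refine ⟨mem_univ _, fun x hx => ?_⟩
      obtain ⟨v, hv, rfl⟩ := mem_image.1 hx
      rw [hg]
      exact h v (mem_filter.1 hv).2
    · rintro ⟨-, h⟩
      refine ⟨mem_univ _, fun v hv => ?_⟩
      rw [h _ (mem_image_of_mem _ (mem_filter.2 ⟨mem_univ _, hv⟩)), hg]
  have h3 : (Nat.card (Finset (Fin n × Bool) → Bool) : ℝ) =
      ((EE F σ).card : ℝ) * 2 ^ P.card := by
    have h0 : Nat.card (Finset (Fin n × Bool) → Bool) = (EE F σ).card * 2 ^ P.card := by
      rw [h2]
      refine h1.symm.trans ?_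
      congr
      funext a b
      exact Subsingleton.elim _ _
    rw [h0]
    push_cast
    rfl
  rw [h3]
  have h4 : (2 : ℝ) ^ (univ.filter fun v => Frc F σ v).card * (1 / 2) ^ n * 2 ^ P.card ≤ 1 := by
    have h5 : (2 : ℝ) ^ P.card ≤ 2 ^ N.card := pow_le_pow_right₀ (by norm_num) hPN
    calc (2 : ℝ) ^ (univ.filter fun v => Frc F σ v).card * (1 / 2) ^ n * 2 ^ P.card
        ≤ (2 : ℝ) ^ (univ.filter fun v => Frc F σ v).card * (1 / 2) ^ n * 2 ^ N.card :=
          mul_le_mul_of_nonneg_left h5 (by positivity)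
      _ = (2 : ℝ) ^ ((univ.filter fun v => Frc F σ v).card + N.card) * (1 / 2) ^ n := by
          rw [pow_add]
          ring
      _ = 1 := by
          rw [hcard, ← mul_pow]
          norm_num
  calc (2 : ℝ) ^ (univ.filter fun v => Frc F σ v).card * (1 / 2) ^ n *
        (((EE F σ).card : ℝ) * 2 ^ P.card)
      = ((2 : ℝ) ^ (univ.filter fun v => Frc F σ v).card * (1 / 2) ^ n * 2 ^ P.card) *
        ((EE F σ).card : ℝ) := by ring
    _ ≤ 1 * ((EE F σ).card : ℝ) := mul_le_mul_of_nonneg_right h4 (Nat.cast_nonneg _)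
    _ = ((EE F σ).card : ℝ) := one_mul _

theorem LL_congr (σ τ : Fin n → Bool) (v : Fin n) (h : ∀ u : Fin n, u.1 < v.1 → σ u = τ u) :
    LL σ v.1 = LL τ v.1 := by
  ext x
  rw [mem_LL, mem_LL]
  constructor
  · rintro ⟨h1, h2⟩
    exact ⟨h1, by rw [h2, h x.1 h1]⟩
  · rintro ⟨h1, h2⟩
    exact ⟨h1, by rw [h2, h x.1 h1]⟩

/-- at the first difference of two solutions the variable is not forced -/
theorem not_Frc (F : Fml n k m) (σ τ : Fin n → Bool) (hτ : Sat F τ) (v : Fin n)
    (h : ∀ u : Fin n, u.1 < v.1 → σ u = τ u) (hv : σ v ≠ τ v) : ¬ Frc F σ v := by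
  rintro ⟨c, i, h1, h2, h3⟩
  obtain ⟨p, hp⟩ := hτ c
  by_cases hpi : p = i
  · rw [hpi, h1, ← h2] at hp
    exact hv hp.symm
  · obtain ⟨h4, h5⟩ := h3 p hpi
    rw [h _ h4] at h5
    exact h5 hp

theorem disj_EE (F : Fml n k m) (σ τ : Fin n → Bool) (hσ : Sat F σ) (hτ : Sat F τ)
    (hne : σ ≠ τ) : Disjoint (EE F σ) (EE F τ) := by
  classical
  obtain ⟨v₀, hv₀⟩ := Function.ne_iff.1 hne
  have hex : ∃ j : ℕ, ∃ v : Fin n, v.1 = j ∧ σ v ≠ τ v := ⟨v₀.1, v₀, rfl, hv₀⟩
  obtain ⟨v, hv1, hv2⟩ := Nat.find_spec hex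
  have hmin : ∀ u : Fin n, u.1 < v.1 → σ u = τ u := by
    intro u hu
    by_contra hc
    rw [hv1] at hu
    exact Nat.find_min hex hu ⟨u, rfl, hc⟩
  rw [Finset.disjoint_left]
  intro ω h1 h2
  have h3 := (mem_filter.1 h1).2 v (not_Frc F σ τ hτ v hmin hv2)
  have h4 := (mem_filter.1 h2).2 v
    (not_Frc F τ σ hσ v (fun u hu => (hmin u hu).symm) (Ne.symm hv2))
  rw [LL_congr σ τ v hmin] at h3
  exact hv2 (h3.symm.trans h4)

open Classical in
theorem pf_UPD : T_UPD := by
  intro n k m F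
  have hsub : (univ.filter fun σ : Fin n → Bool => Sat F σ).biUnion (EE F) ⊆
      univ.filter fun ω : Finset (Fin n × Bool) → Bool =>
        Find F (Refuted F 1 1) ω (Pool.Agent.H47.SQ.chain (List.finRange n)) ∅ := by
    intro ω hω
    obtain ⟨σ, hσ, hω'⟩ := mem_biUnion.1 hω
    refine mem_filter.2 ⟨mem_univ _, ?_⟩
    have h3 := find_chain F σ (mem_filter.1 hσ).2 ω (mem_filter.1 hω').2 n le_rfl
    rw [Nat.sub_self, List.drop_zero] at h3
    have h4 : LL σ 0 = ∅ := by
      ext x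
      rw [mem_LL]
      simp
    rw [h4] at h3
    exact h3
  have hcard : (∑ σ ∈ univ.filter fun σ : Fin n → Bool => Sat F σ, (EE F σ).card) ≤
      Nat.card {ω : Finset (Fin n × Bool) → Bool //
        Find F (Refuted F 1 1) ω (Pool.Agent.H47.SQ.chain (List.finRange n)) ∅} := by
    rw [Nat.card_eq_fintype_card, Fintype.card_subtype, ← card_biUnion]
    · exact card_le_card hsub
    · intro σ hσ τ hτ hne
      exact disj_EE F σ τ (mem_filter.1 hσ).2 (mem_filter.1 hτ).2 hne
  unfold success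
  have hpos : (0 : ℝ) < Nat.card (Finset (Fin n × Bool) → Bool) := by
    rw [Nat.card_eq_fintype_card, Fintype.card_fun, Fintype.card_bool]
    positivity
  rw [le_div_iff₀ hpos, Finset.sum_mul, Finset.sum_mul]
  calc (∑ σ ∈ univ.filter fun σ : Fin n → Bool => Sat F σ,
        (2 : ℝ) ^ (univ.filter fun v => Frc F σ v).card * (1 / 2) ^ n *
          (Nat.card (Finset (Fin n × Bool) → Bool) : ℝ))
      ≤ ∑ σ ∈ univ.filter fun σ : Fin n → Bool => Sat F σ, ((EE F σ).card : ℝ) :=
        Finset.sum_le_sum fun σ _ => card_EE F σ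
    _ ≤ _ := by exact_mod_cast hcard

end Pool.Agent.H51.SQ
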