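import Pool.Agent.H47.SQ.Targets4

/-!
Board `ppz_modules`, row `ZMS`: all scales together (adapted from the modules `MSD` of helper42 and
`XLG` of helper48; MP_c62aed_lc).
-/

set_option autoImplicit false

namespace Pool.Agent.H51.SQ

open Finset Pool.Agent.H97.RK Pool.Agent.H41.SS
open Pool.Agent.H47.PL (Sat Agr Con dm nsol Os)
open Pool.Agent.H47.SQ (Derivation Refuted Find success sav guess AlmostAll)
open Pool.Agent.H47.SR

open Classical in
private theorem success_eq {n k m : ℕ} (F : Fml n k m) (a s : ℕ) (T : Pool.Agent.H47.SQ.Tree n) :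
    success F a s T = ((univ.filter fun ω => Find F (Refuted F a s) ω T ∅).card : ℝ) /
      (Fintype.card (Finset (Fin n × Bool) → Bool) : ℝ) := by
  unfold success
  rw [Nat.card_eq_fintype_card, Nat.card_eq_fintype_card, Fintype.card_subtype]

private theorem exists_scale {n t R : ℕ} (ht : 1 ≤ t) (hR : 1 ≤ R) (h : R * t ≤ n) :
    ∃ I, R * (2 ^ I * t) ≤ n ∧ n < 2 * (R * (2 ^ I * t)) := by
  classical
  have hex : ∃ i, n < R * (2 ^ i * t) := by
    refine ⟨n, ?_⟩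
    have h1 : n < 2 ^ n := Nat.lt_two_pow_self
    have h2 : 2 ^ n ≤ 2 ^ n * t := Nat.le_mul_of_pos_right _ ht
    have h3 : 2 ^ n * t ≤ R * (2 ^ n * t) := Nat.le_mul_of_pos_left _ hR
    omega
  have hs := Nat.find_spec hex
  rcases hI : Nat.find hex with _ | I
  · rw [hI] at hs
    simp only [pow_zero, one_mul] at hs
    omega
  · rw [hI] at hs
    refine ⟨I, ?_, ?_⟩
    · have := Nat.find_min hex (m := I) (by omega)
      omega
    · have h3 : R * (2 ^ (I + 1) * t) = 2 * (R * (2 ^ I * t)) := by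
        rw [pow_succ]
        ring
      rw [h3] at hs
      exact hs

private theorem tb {X Nh : ℝ} {j t t₀ R : ℕ} (hX : X * 2 ^ (5 * (R * t)) ≤ Nh) (hX0 : 0 ≤ X)
    (h0 : R * t₀ ≤ R * t) (h1 : 8 * t + 2 * j + 4 ≤ 2 * (R * t)) :
    2 ^ (j + 2 + 1) * (X * 2 ^ (4 * (2 * t))) * 2 ^ (R * (2 * t)) ≤
      Nh / 2 ^ (R * t₀) * (1 / 2) ^ (j + 1) := by
  have e : (1 / 2 : ℝ) ^ (j + 1) = 1 / 2 ^ (j + 1) := by
    rw [one_div_pow]
  rw [e, div_mul_div_comm, mul_one, ← pow_add, le_div_iff₀ (by positivity)]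
  refine le_trans ?_ hX
  have e2 : 2 ^ (j + 2 + 1) * (X * 2 ^ (4 * (2 * t))) * 2 ^ (R * (2 * t)) *
      2 ^ (R * t₀ + (j + 1)) =
      X * (2 : ℝ) ^ (j + 2 + 1 + 4 * (2 * t) + R * (2 * t) + (R * t₀ + (j + 1))) := by
    rw [pow_add (2 : ℝ) (j + 2 + 1 + 4 * (2 * t) + R * (2 * t)),
      pow_add (2 : ℝ) (j + 2 + 1 + 4 * (2 * t)), pow_add (2 : ℝ) (j + 2 + 1)]
    ring
  rw [e2]
  refine mul_le_mul_of_nonneg_left (pow_le_pow_right₀ (by norm_num) ?_) hX0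
  have e3 : R * (2 * t) = 2 * (R * t) := by ring
  rw [e3]
  omega

open Classical in
private theorem core (hRSW : T_RSW) (hDRQ : T_DRQ) (hPIG : T_PIG) (R : ℕ) (hR : 144 ≤ R)
    (hNU : ∀ t s N S : ℕ, 1 ≤ t → s ^ 12 ≤ 2 ^ (7 * ((R + 4) * t)) → S ≤ s →
      R * t ≤ N + 4 * t → N ≤ R * t →
      S * (2 ^ N * bl N (130 * t) * bl N (4 * t)) + 2 ^ N * bl N (140 * t) < 3 ^ N)
    (n k m : ℕ) (F : Fml n k m) (t₀ : ℕ) (Nh : ℝ) (C B : Finset (Fin n → Bool))
    (u e a s : ℕ) (ht₀ : 1 ≤ t₀) (hRn : R * t₀ ≤ n) (hun : u ≤ n)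
    (hCB : ∀ τ, Sat F τ → τ ∈ C ∨ τ ∈ B) (hB : ∀ τ ∈ B, Sat F τ)
    (hNh2 : Nh ≤ 2 ^ (R * t₀ + n + 1))
    (hbad : ∀ t, t₀ ≤ t → R * t ≤ n →
      (badr F t (R * t + 4 * t + 1) : ℝ) * 2 ^ (5 * (R * t)) ≤ Nh)
    (ha : a ≤ 2 * t₀) (hs : s ^ 12 ≤ 2 ^ (7 * ((R + 4) * t₀)))
    (hRes : ∃ Res, Rs C (n - u) e (Refuted F a s) Res) (T : Pool.Agent.H47.SQ.Tree n) :
    success F a s T * 2 ^ n ≤
      2 * (C.card * 2 ^ (u + e)) + 4 * (B.card * 2 ^ ((R + 4) * t₀)) + Nh / 2 ^ (R * t₀) := by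
  have hNh0 : 0 ≤ Nh := le_trans (by positivity) (hbad t₀ le_rfl hRn)
  have hΩ0 : (0 : ℝ) < (Fintype.card (Finset (Fin n × Bool) → Bool) : ℝ) := by
    exact_mod_cast Fintype.card_pos
  have hcon : Con (∅ : Finset (Fin n × Bool)) := fun v b h => absurd h (Finset.notMem_empty _)
  rw [success_eq]
  obtain ⟨I, hI1, hI2⟩ := exists_scale ht₀ (by omega) hRn
  have htj : ∀ j, t₀ ≤ 2 ^ j * t₀ := fun j => Nat.le_mul_of_pos_left _ (by positivity)
  have htI : ∀ j, j ≤ I → R * (2 ^ j * t₀) ≤ n := fun j hj =>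
    (Nat.mul_le_mul_left _ (Nat.mul_le_mul_right _
      (Nat.pow_le_pow_right (by norm_num) hj))).trans hI1
  have hbI : badr F (2 ^ I * t₀) (R * (2 ^ I * t₀) + 4 * (2 ^ I * t₀) + 1) = 0 := by
    by_contra hne
    have h1 : (1 : ℝ) ≤ badr F (2 ^ I * t₀) (R * (2 ^ I * t₀) + 4 * (2 ^ I * t₀) + 1) := by
      exact_mod_cast Nat.one_le_iff_ne_zero.2 hne
    have h2 : (2 : ℝ) ^ (5 * (R * (2 ^ I * t₀))) ≤ 2 ^ (R * t₀ + n + 1) := by
      refine le_trans ?_ ((hbad (2 ^ I * t₀) (htj I) hI1).trans hNh2)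
      exact le_mul_of_one_le_left (by positivity) h1
    have h3 : 5 * (R * (2 ^ I * t₀)) ≤ R * t₀ + n + 1 :=
      (pow_le_pow_iff_right₀ (by norm_num)).1 h2
    have h4 : R * t₀ ≤ R * (2 ^ I * t₀) := Nat.mul_le_mul_left _ (htj I)
    have h5 : R * 1 ≤ R * t₀ := Nat.mul_le_mul_left _ ht₀
    omega
  obtain ⟨G, hG⟩ : ∃ G : ℕ → Finset (Fin n → Bool), ∀ j, G j =
      gdr F (2 ^ j * t₀) (R * (2 ^ j * t₀) + 4 * (2 ^ j * t₀) + 1) := ⟨_, fun j => rfl⟩
  have hGI : ∀ τ ∈ B, τ ∈ G I := by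
    intro τ hτ
    rw [hG]
    unfold gdr
    rw [Finset.mem_filter]
    refine ⟨Finset.mem_univ _, hB τ hτ, ?_⟩
    by_contra hc
    unfold badr at hbI
    rw [Finset.card_eq_zero, Finset.filter_eq_empty_iff] at hbI
    exact hbI (Finset.mem_univ τ) ⟨hB τ hτ, hc⟩
  obtain ⟨K, hK0, hK1, hKs⟩ : ∃ K : ℕ → Finset (Fin n → Bool), K 0 = C ∧ K 1 = B ∩ G 0 ∧
      ∀ j, K (j + 2) = G (j + 1) \ G j :=
    ⟨fun j => Nat.casesOn j C (fun j => Nat.casesOn j (B ∩ G 0) (fun j => G (j + 1) \ G j)),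
      rfl, rfl, fun j => rfl⟩
  have hcov : ∀ τ, Sat F τ → ∃ j, j < I + 2 ∧ τ ∈ K j := by
    intro τ hτ
    rcases hCB τ hτ with h | h
    · exact ⟨0, by omega, by rw [hK0]; exact h⟩
    · have hex : ∃ j, τ ∈ G j := ⟨I, hGI τ h⟩
      obtain ⟨j, hj1, hj2, hj3⟩ : ∃ j, τ ∈ G j ∧ j ≤ I ∧ ∀ i < j, τ ∉ G i :=
        ⟨Nat.find hex, Nat.find_spec hex, Nat.find_min' hex (hGI τ h),
          fun i hi => Nat.find_min hex hi⟩
      refine ⟨j + 1, by omega, ?_⟩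
      cases j with
      | zero =>
        rw [hK1]
        exact Finset.mem_inter.2 ⟨h, hj1⟩
      | succ j =>
        rw [hKs, Finset.mem_sdiff]
        exact ⟨hj1, hj3 j (Nat.lt_succ_self j)⟩
  have hFQ : (univ.filter fun ω => Find F (Refuted F a s) ω T ∅).card ≤
      ∑ j ∈ range (I + 2),
        (univ.filter fun ω => FindQ (Refuted F a s) (Qi (K j) j) ω T ∅).card := by
    refine le_trans (Finset.card_le_card ?_) Finset.card_biUnion_le
    intro ω hω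
    rw [Finset.mem_filter] at hω
    obtain ⟨j, hj, hq⟩ := hPIG n k m F (Refuted F a s) ω (I + 2) K hcov T ∅ hcon hω.2
    rw [Finset.mem_biUnion]
    exact ⟨j, Finset.mem_range.2 hj, Finset.mem_filter.2 ⟨Finset.mem_univ _, hq⟩⟩
  -- one class
  have one : ∀ (j D e' : ℕ) (Res : Finset (Fin n × Bool) → Finset (Fin n) → Prop),
      Rs (K j) (n - D) e' (Refuted F a s) Res → D ≤ n →
      ((univ.filter fun ω => FindQ (Refuted F a s) (Qi (K j) j) ω T ∅).card : ℝ) * 2 ^ n ≤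
      (Fintype.card (Finset (Fin n × Bool) → Bool) : ℝ) *
        (2 ^ (j + 1) * (((K j).card : ℝ) * 2 ^ e') * 2 ^ D) := by
    intro j D e' Res hR' hD
    have h5 := hDRQ n (K j) (n - D) e' (Refuted F a s) Res hR' (Nat.sub_le _ _)
      (2 ^ (j + 1)) (Qi (K j) j) (fun L hL => hL) T
    have h6 : ((univ.filter fun ω => FindQ (Refuted F a s) (Qi (K j) j) ω T ∅).card : ℝ) *
        2 ^ (n - D) ≤ 2 ^ (j + 1) * (((K j).card : ℝ) * 2 ^ e') *
        (Fintype.card (Finset (Fin n × Bool) → Bool) : ℝ) := by exact_mod_cast h5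
    have h7 : (2 : ℝ) ^ n = 2 ^ (n - D) * 2 ^ D := by
      rw [← pow_add, Nat.sub_add_cancel hD]
    rw [h7, ← mul_assoc]
    calc _ ≤ (2 ^ (j + 1) * (((K j).card : ℝ) * 2 ^ e') *
        (Fintype.card (Finset (Fin n × Bool) → Bool) : ℝ)) * 2 ^ D :=
          mul_le_mul_of_nonneg_right h6 (by positivity)
      _ = _ := by ring
  -- the solutions of the scale `j`
  have hsc : ∀ j, j ≤ I → ∀ X : Finset (Fin n → Bool), X ⊆ G j →
      ∃ Res, Rs X (n - R * (2 ^ j * t₀)) (4 * (2 ^ j * t₀)) (Refuted F a s) Res := by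
    intro j hj X hX
    obtain ⟨t, ht⟩ : ∃ t : ℕ, t = 2 ^ j * t₀ := ⟨_, rfl⟩
    have ht0 : t₀ ≤ t := by
      rw [ht]
      exact htj j
    have htn : R * t ≤ n := by
      rw [ht]
      exact htI j hj
    have hst : s ^ 12 ≤ 2 ^ (7 * ((R + 4) * t)) :=
      hs.trans (Nat.pow_le_pow_right (by norm_num)
        (Nat.mul_le_mul_left _ (Nat.mul_le_mul_left _ ht0)))
    have hCt : X ⊆ gdr F t (R * t + 4 * t + 1) := by
      rw [ht, ← hG]
      exact hX
    rw [← ht]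
    exact hRSW n k m F R t a s X (by omega) hR htn (by omega) hCt
      (fun N S hS hN1 hN2 => hNU t s N S (by omega) hst hS hN1 hN2)
  have hterm0 : ((univ.filter fun ω => FindQ (Refuted F a s) (Qi (K 0) 0) ω T ∅).card : ℝ) *
      2 ^ n ≤ (Fintype.card (Finset (Fin n × Bool) → Bool) : ℝ) *
        (2 * (C.card * 2 ^ (u + e))) := by
    obtain ⟨Res, hRes⟩ := hRes
    have h1 := one 0 u e Res (by rw [hK0]; exact hRes) hun
    refine h1.trans (le_of_eq ?_)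
    rw [hK0, pow_add (2 : ℝ) u e]
    ring
  have hterm1 : ((univ.filter fun ω => FindQ (Refuted F a s) (Qi (K 1) 1) ω T ∅).card : ℝ) *
      2 ^ n ≤ (Fintype.card (Finset (Fin n × Bool) → Bool) : ℝ) *
        (4 * (B.card * 2 ^ ((R + 4) * t₀))) := by
    obtain ⟨Res, hRes⟩ := hsc 0 (Nat.zero_le _) (K 1) (by rw [hK1]; exact Finset.inter_subset_right)
    rw [pow_zero, one_mul] at hRes
    have h1 := one 1 (R * t₀) (4 * t₀) Res hRes hRn
    refine h1.trans (mul_le_mul_of_nonneg_left ?_ hΩ0.le)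
    have h2 : ((K 1).card : ℝ) ≤ B.card := by
      rw [hK1]
      exact_mod_cast Finset.card_le_card Finset.inter_subset_left
    have h3 : (2 : ℝ) ^ ((R + 4) * t₀) = 2 ^ (4 * t₀) * 2 ^ (R * t₀) := by
      rw [← pow_add]
      congr 1
      ring
    rw [h3]
    have h4 : (0 : ℝ) ≤ 2 ^ (4 * t₀) * 2 ^ (R * t₀) := by positivity
    calc 2 ^ (1 + 1) * (((K 1).card : ℝ) * 2 ^ (4 * t₀)) * 2 ^ (R * t₀) =
        4 * (((K 1).card : ℝ) * (2 ^ (4 * t₀) * 2 ^ (R * t₀))) := by ring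
      _ ≤ 4 * ((B.card : ℝ) * (2 ^ (4 * t₀) * 2 ^ (R * t₀))) :=
        mul_le_mul_of_nonneg_left (mul_le_mul_of_nonneg_right h2 h4) (by norm_num)
  have hterm2 : ∀ j ∈ range I,
      ((univ.filter fun ω => FindQ (Refuted F a s) (Qi (K (j + 2)) (j + 2)) ω T ∅).card : ℝ) *
        2 ^ n ≤ (Fintype.card (Finset (Fin n × Bool) → Bool) : ℝ) *
        (Nh / 2 ^ (R * t₀) * (1 / 2) ^ (j + 1)) := by
    intro j hj
    rw [Finset.mem_range] at hj
    obtain ⟨t, ht⟩ : ∃ t : ℕ, t = 2 ^ j * t₀ := ⟨_, rfl⟩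
    have e1 : 2 ^ (j + 1) * t₀ = 2 * t := by
      rw [ht, pow_succ]
      ring
    obtain ⟨Res, hRes⟩ := hsc (j + 1) (by omega) (K (j + 2))
      (by rw [hKs]; exact Finset.sdiff_subset)
    rw [e1] at hRes
    have htn : R * (2 * t) ≤ n := by
      rw [← e1]
      exact htI (j + 1) (by omega)
    have h1 := one (j + 2) (R * (2 * t)) (4 * (2 * t)) Res hRes htn
    refine h1.trans (mul_le_mul_of_nonneg_left ?_ hΩ0.le)
    have h12 : j + 1 ≤ t := by
      rw [ht]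
      have h13 : j < 2 ^ j := Nat.lt_two_pow_self
      exact le_trans (by omega) (Nat.le_mul_of_pos_right _ ht₀)
    have h14 : 144 * t ≤ R * t := Nat.mul_le_mul_right _ hR
    have h15 : R * t₀ ≤ R * t := by
      rw [ht]
      exact Nat.mul_le_mul_left _ (htj j)
    have h16 : (badr F t (R * t + 4 * t + 1) : ℝ) * 2 ^ (5 * (R * t)) ≤ Nh := by
      rw [ht]
      exact hbad _ (htj j) (htI j hj.le)
    have h17 : (K (j + 2)).card ≤ badr F t (R * t + 4 * t + 1) := by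
      rw [hKs, hG, hG, ht]
      unfold gdr badr
      refine Finset.card_le_card fun τ hτ => ?_
      rw [Finset.mem_sdiff, Finset.mem_filter] at hτ
      rw [Finset.mem_filter]
      refine ⟨Finset.mem_univ _, hτ.1.2.1, fun h => hτ.2 ?_⟩
      rw [Finset.mem_filter]
      exact ⟨Finset.mem_univ _, hτ.1.2.1, h⟩
    have h18 : ((K (j + 2)).card : ℝ) * 2 ^ (5 * (R * t)) ≤ Nh :=
      le_trans (mul_le_mul_of_nonneg_right (by exact_mod_cast h17) (by positivity)) h16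
    exact tb h18 (Nat.cast_nonneg _) h15 (by omega)
  have hFr : ((univ.filter fun ω => Find F (Refuted F a s) ω T ∅).card : ℝ) ≤
      ∑ j ∈ range (I + 2),
        ((univ.filter fun ω => FindQ (Refuted F a s) (Qi (K j) j) ω T ∅).card : ℝ) := by
    exact_mod_cast hFQ
  have hgeo := sum_geometric_two_le I
  rw [div_mul_eq_mul_div, div_le_iff₀ hΩ0]
  rw [Finset.sum_range_succ' _ (I + 1), Finset.sum_range_succ' _ I] at hFr
  have hN1 : 0 ≤ Nh / 2 ^ (R * t₀) := by positivity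
  have hsum : ∑ j ∈ range I, ((univ.filter fun ω =>
      FindQ (Refuted F a s) (Qi (K (j + 2)) (j + 2)) ω T ∅).card : ℝ) * 2 ^ n ≤
      (Fintype.card (Finset (Fin n × Bool) → Bool) : ℝ) * (Nh / 2 ^ (R * t₀)) := by
    calc _ ≤ ∑ j ∈ range I, (Fintype.card (Finset (Fin n × Bool) → Bool) : ℝ) *
        (Nh / 2 ^ (R * t₀) * (1 / 2) ^ (j + 1)) := Finset.sum_le_sum hterm2
      _ = (Fintype.card (Finset (Fin n × Bool) → Bool) : ℝ) *
        (Nh / 2 ^ (R * t₀) * ((1 / 2) * ∑ j ∈ range I, (1 / 2 : ℝ) ^ j)) := by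
          rw [Finset.mul_sum, Finset.mul_sum, Finset.mul_sum]
          refine Finset.sum_congr rfl fun j _ => ?_
          rw [pow_succ]
          ring
      _ ≤ (Fintype.card (Finset (Fin n × Bool) → Bool) : ℝ) * (Nh / 2 ^ (R * t₀) * 1) := by
          refine mul_le_mul_of_nonneg_left (mul_le_mul_of_nonneg_left ?_ hN1) hΩ0.le
          linarith only [hgeo]
      _ = _ := by rw [mul_one]
  calc _ ≤ _ := mul_le_mul_of_nonneg_right hFr (by positivity : (0 : ℝ) ≤ 2 ^ n)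
    _ = (∑ j ∈ range I, ((univ.filter fun ω =>
        FindQ (Refuted F a s) (Qi (K (j + 2)) (j + 2)) ω T ∅).card : ℝ) * 2 ^ n) +
        ((univ.filter fun ω => FindQ (Refuted F a s) (Qi (K 1) 1) ω T ∅).card : ℝ) * 2 ^ n +
        ((univ.filter fun ω => FindQ (Refuted F a s) (Qi (K 0) 0) ω T ∅).card : ℝ) * 2 ^ n := by
        rw [add_mul, add_mul, Finset.sum_mul]
    _ ≤ (Fintype.card (Finset (Fin n × Bool) → Bool) : ℝ) * (Nh / 2 ^ (R * t₀)) +
        (Fintype.card (Finset (Fin n × Bool) → Bool) : ℝ) *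
          (4 * (B.card * 2 ^ ((R + 4) * t₀))) +
        (Fintype.card (Finset (Fin n × Bool) → Bool) : ℝ) *
          (2 * (C.card * 2 ^ (u + e))) := add_le_add (add_le_add hsum hterm1) hterm0
    _ = _ := by ring

/-- (ZMS) all scales together; `C` are the solutions which are good at the scale `t`. -/
theorem pf_ZMS (hRSW : T_RSW) (hNUE : T_NUE) (hDRQ : T_DRQ) (hPIG : T_PIG) : T_ZMS := by
  intro n k m F t₀ Nh C B u e a s ht₀ hRn hun hCB hB hNh2 hbad ha hs hRes T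
  exact core hRSW hDRQ hPIG (2 ^ 22) (by norm_num) hNUE n k m F t₀ Nh C B u e a s ht₀ hRn hun
    hCB hB hNh2 hbad ha hs hRes T

end Pool.Agent.H51.SQ
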